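import Pool.Agent.G02.StmtsS

/-!
# Squad G02, module GBI: the isogenous curve has no further bad places
-/

set_option autoImplicit false

namespace Pool.Agent.G02.H42

open Polynomial Pool.Agent.NJ Pool.Agent.GT.F

theorem gbi (h1 : Gd1Stmt) : GbiStmt := by
  intro E e a b hR A hA
  refine ⟨hA.1, fun hgood => hA.2 ?_⟩
  have hC : ∀ c : ℂ, RatFunc.C c ∈ A := hA.1.1
  have hR' : Rt1 (genC E) _ _ _ := Rt1.map hR ((algebraMap ℂ[X] (RatFunc ℂ)).comp (mapRingHom (algebraMap ℚ ℂ)))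
  obtain ⟨v, hv0, ha, hb, hbi, hd, hdi, hb0, hd0⟩ := h1 (genC E) A _ _ _ hC hR' hgood
  set f : ℚ[X] →+* RatFunc ℂ := (algebraMap ℂ[X] (RatFunc ℂ)).comp (mapRingHom (algebraMap ℚ ℂ))
    with hf
  have hn : ∀ n : ℕ, (n : RatFunc ℂ) ∈ A := by
    intro n
    have := hC (n : ℂ)
    rwa [map_natCast] at this
  have hni : ∀ n : ℕ, (n : RatFunc ℂ)⁻¹ ∈ A := by
    intro n
    have := hC (n : ℂ)⁻¹
    rwa [map_inv₀, map_natCast] at this
  have hgen : genC ⟨0, -2 * a, 0, a ^ 2 - 4 * b, 0⟩ =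
      ⟨0, -2 * f a, 0, (f a) ^ 2 - 4 * f b, 0⟩ := by
    have e1 : genC ⟨0, -2 * a, 0, a ^ 2 - 4 * b, 0⟩ =
        (⟨0, -2 * a, 0, a ^ 2 - 4 * b, 0⟩ : WeierstrassCurve ℚ[X]).map f := rfl
    rw [e1]
    clear_value f
    ext
    · simp only [WeierstrassCurve.map_a₁, map_zero]
    · simp only [WeierstrassCurve.map_a₂, map_mul, map_neg, map_ofNat]
    · simp only [WeierstrassCurve.map_a₃, map_zero]
    · simp only [WeierstrassCurve.map_a₄, map_mul, map_sub, map_pow, map_ofNat]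
    · simp only [WeierstrassCurve.map_a₆, map_zero]
  rw [hgen]
  have hui : (((Units.mk0 v hv0)⁻¹ : (RatFunc ℂ)ˣ) : RatFunc ℂ) = v⁻¹ := by
    rw [Units.val_inv_eq_inv_val]; rfl
  have hD : ((⟨Units.mk0 v hv0, 0, 0, 0⟩ : WeierstrassCurve.VariableChange (RatFunc ℂ)) •
      (⟨0, -2 * f a, 0, (f a) ^ 2 - 4 * f b, 0⟩ : WeierstrassCurve (RatFunc ℂ))).Δ =
      ((256 : ℕ) : RatFunc ℂ) * (((f a) ^ 2 - 4 * f b) / v ^ 4) ^ 2 * (f b / v ^ 4) := by
    rw [WeierstrassCurve.variableChange_Δ]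
    simp only [WeierstrassCurve.Δ, WeierstrassCurve.b₂, WeierstrassCurve.b₄, WeierstrassCurve.b₆,
      WeierstrassCurve.b₈, hui]
    push_cast
    field_simp
    ring
  refine ⟨⟨Units.mk0 v hv0, 0, 0, 0⟩, ?_, ?_, ?_, ?_, ?_, ?_, ?_⟩
  · rw [WeierstrassCurve.variableChange_a₁]
    simp only [mul_zero, add_zero]
    exact A.zero_mem
  · rw [WeierstrassCurve.variableChange_a₂, hui]
    have : v⁻¹ ^ 2 * (-2 * f a - 0 * 0 + 3 * 0 - 0 ^ 2) = -(((2 : ℕ) : RatFunc ℂ) * (f a / v ^ 2)) := by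
      push_cast
      field_simp
      ring
    rw [this]
    exact A.neg_mem _ (A.mul_mem _ _ (hn 2) ha)
  · rw [WeierstrassCurve.variableChange_a₃]
    simp only [mul_zero, add_zero]
    exact A.zero_mem
  · rw [WeierstrassCurve.variableChange_a₄, hui]
    have : v⁻¹ ^ 4 * ((f a ^ 2 - 4 * f b) - 0 * 0 + 2 * 0 * (-2 * f a) - (0 + 0 * 0) * 0 + 3 * 0 ^ 2 -
        2 * 0 * 0) = (f a ^ 2 - 4 * f b) / v ^ 4 := by
      field_simp
      ring
    rw [this]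
    exact hd
  · rw [WeierstrassCurve.variableChange_a₆]
    simp only [mul_zero, zero_mul, add_zero, sub_zero, ne_eq, OfNat.ofNat_ne_zero,
      not_false_eq_true, zero_pow]
    exact A.zero_mem
  · rw [hD]
    refine mul_ne_zero (mul_ne_zero (by norm_num) (pow_ne_zero _ (div_ne_zero hd0 (pow_ne_zero _ hv0))))
      (div_ne_zero hb0 (pow_ne_zero _ hv0))
  · rw [hD, mul_inv, mul_inv, ← inv_pow, pow_two]
    exact A.mul_mem _ _ (A.mul_mem _ _ (hni 256) (A.mul_mem _ _ hdi hdi)) hbi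

end Pool.Agent.G02.H42
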